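import Mathlib

namespace Pool.Agent.Results.MP_31a5b6_al.EtaOne

/-- `L` is closed under the pointwise maximum and the pointwise minimum. -/
def IsSublatticeOf {T : Type} [LinearOrder T] (L : Subgroup (T ≃o T)) : Prop :=
  ∀ f ∈ L, ∀ g ∈ L,
    (∃ h ∈ L, ∀ t, h t = max (f t) (g t)) ∧ (∃ h ∈ L, ∀ t, h t = min (f t) (g t))

/-- Condition 1: any increasing pair can be moved to any increasing pair. -/
def TwoTransitive {T : Type} [LinearOrder T] (L : Subgroup (T ≃o T)) : Prop :=
  ∀ r₁ r₂ s₁ s₂ : T, r₁ < r₂ → s₁ < s₂ → ∃ f ∈ L, f r₁ = s₁ ∧ f r₂ = s₂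

/-- Condition 2: every element of `L` has bounded support. -/
def BoundedSupport {T : Type} [LinearOrder T] (L : Subgroup (T ≃o T)) : Prop :=
  ∀ f ∈ L, ∃ t₁ t₂ : T, (∀ s, s < t₁ → f s = s) ∧ (∀ s, t₂ < s → f s = s)

/-- `f` is an l-prime of `L`: an element of `L` that is not the join of two elements of `L`
different from the identity whose meet is the identity. -/
def IsLPrime {T : Type} [LinearOrder T] (L : Subgroup (T ≃o T)) (f : T ≃o T) : Prop :=
  f ∈ L ∧ ¬ ∃ f₁ ∈ L, ∃ f₂ ∈ L, f₁ ≠ 1 ∧ f₂ ≠ 1 ∧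
    (∀ t, min (f₁ t) (f₂ t) = t) ∧ (∀ t, max (f₁ t) (f₂ t) = f t)

section general

variable {T : Type} [LinearOrder T]

/-- pointwise maximum of two automorphisms -/
noncomputable def osup (f g : T ≃o T) : T ≃o T :=
  StrictMono.orderIsoOfSurjective (fun x => max (f x) (g x))
    (fun x y h => max_lt_max (f.strictMono h) (g.strictMono h))
    (fun y => by
      rcases le_total (f.symm y) (g.symm y) with h | h
      · refine ⟨f.symm y, ?_⟩
        have h2 : g (f.symm y) ≤ y := by
          have := g.monotone h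
          simpa using this
        simpa using h2
      · refine ⟨g.symm y, ?_⟩
        have h2 : f (g.symm y) ≤ y := by
          have := f.monotone h
          simpa using this
        simpa using h2)

@[simp] theorem osup_apply (f g : T ≃o T) (x : T) : osup f g x = max (f x) (g x) := rfl

/-- pointwise minimum of two automorphisms -/
noncomputable def oinf (f g : T ≃o T) : T ≃o T :=
  StrictMono.orderIsoOfSurjective (fun x => min (f x) (g x))
    (fun x y h => min_lt_min (f.strictMono h) (g.strictMono h))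
    (fun y => by
      rcases le_total (f.symm y) (g.symm y) with h | h
      · refine ⟨g.symm y, ?_⟩
        have h2 : y ≤ f (g.symm y) := by
          have := f.monotone h
          simpa using this
        simpa using h2
      · refine ⟨f.symm y, ?_⟩
        have h2 : y ≤ g (f.symm y) := by
          have := g.monotone h
          simpa using this
        simpa using h2)

@[simp] theorem oinf_apply (f g : T ≃o T) (x : T) : oinf f g x = min (f x) (g x) := rfl

open Classical in
/-- `f` on the initial segment `A`, identity elsewhere -/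
noncomputable def low (f : T ≃o T) (A : Set T) (hA : ∀ x y, x ≤ y → y ∈ A → x ∈ A)
    (hf : ∀ x, f x ∈ A ↔ x ∈ A) : T ≃o T :=
  StrictMono.orderIsoOfSurjective (fun x => if x ∈ A then f x else x)
    (fun x y h => by
      by_cases hx : x ∈ A <;> by_cases hy : y ∈ A
      · simpa [hx, hy] using h
      · simp only [hx, hy, if_true, if_false]
        by_contra hc
        exact hy (hA _ _ (not_lt.1 hc) ((hf x).2 hx))
      · exact absurd (hA _ _ h.le hy) hx
      · simpa [hx, hy] using h)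
    (fun y => by
      by_cases hy : y ∈ A
      · refine ⟨f.symm y, ?_⟩
        have : f.symm y ∈ A := by rw [← hf]; simpa using hy
        simp [this]
      · exact ⟨y, by simp [hy]⟩)

open Classical in
theorem low_apply (f : T ≃o T) (A : Set T) (hA : ∀ x y, x ≤ y → y ∈ A → x ∈ A)
    (hf : ∀ x, f x ∈ A ↔ x ∈ A) (x : T) : low f A hA hf x = if x ∈ A then f x else x := rfl

open Classical in
/-- identity on the initial segment `A`, `f` elsewhere -/
noncomputable def high (f : T ≃o T) (A : Set T) (hA : ∀ x y, x ≤ y → y ∈ A → x ∈ A)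
    (hf : ∀ x, f x ∈ A ↔ x ∈ A) : T ≃o T :=
  StrictMono.orderIsoOfSurjective (fun x => if x ∈ A then x else f x)
    (fun x y h => by
      by_cases hx : x ∈ A <;> by_cases hy : y ∈ A
      · simpa [hx, hy] using h
      · simp only [hx, hy, if_true, if_false]
        by_contra hc
        exact hy ((hf y).1 (hA _ _ (not_lt.1 hc) hx))
      · exact absurd (hA _ _ h.le hy) hx
      · simpa [hx, hy] using h)
    (fun y => by
      by_cases hy : y ∈ A
      · exact ⟨y, by simp [hy]⟩
      · refine ⟨f.symm y, ?_⟩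
        have : f.symm y ∉ A := by rw [← hf]; simpa using hy
        simp [this])

open Classical in
theorem high_apply (f : T ≃o T) (A : Set T) (hA : ∀ x y, x ≤ y → y ∈ A → x ∈ A)
    (hf : ∀ x, f x ∈ A ↔ x ∈ A) (x : T) : high f A hA hf x = if x ∈ A then x else f x := rfl

end general

section field

variable {K : Type} [Field K] [LinearOrder K] [IsStrictOrderedRing K]

/-- every countable gap of `K` is filled -/
def Eta (K : Type) [LinearOrder K] : Prop :=
  ∀ a b : ℕ → K, (∀ i j, a i < b j) → ∃ c, ∀ i, a i < c ∧ c < b i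

/-- `F` is affine just below every strictly decreasing bounded below sequence -/
def Loc (F : K → K) : Prop :=
  ∀ b : ℕ → K, StrictAnti b → (∃ l, ∀ k, l < b k) →
    ∃ a, (∀ k, a < b k) ∧ ∃ m, ∃ p q : K, ∀ x, a ≤ x → x ≤ b m → F x = p * x + q

omit [IsStrictOrderedRing K] in
theorem loc_affine (p q : K) : Loc (fun x : K => p * x + q) := by
  intro b _ ⟨l, hl⟩
  exact ⟨l, hl, 0, p, q, fun x _ _ => rfl⟩

omit [IsStrictOrderedRing K] in
theorem loc_one : Loc (1 : K ≃o K) := by
  intro b _ ⟨l, hl⟩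
  refine ⟨l, hl, 0, 1, 0, fun x _ _ => ?_⟩
  show x = _
  ring

theorem loc_compare {F G : K → K} (hF : Loc F) (hG : Loc G) (b : ℕ → K) (hb : StrictAnti b)
    (hl : ∃ l, ∀ k, l < b k) :
    ∃ a, (∀ k, a < b k) ∧ ∃ m, ∃ p q p' q' : K,
      (∀ x, a ≤ x → x ≤ b m → F x = p * x + q ∧ G x = p' * x + q') ∧
      ((∀ x, a ≤ x → x ≤ b m → F x ≤ G x) ∨ (∀ x, a ≤ x → x ≤ b m → G x ≤ F x)) := by
  obtain ⟨a₁, ha₁, m₁, p, q, h₁⟩ := hF b hb hl
  obtain ⟨a₂, ha₂, m₂, p', q', h₂⟩ := hG b hb hl
  have key : ∀ x, max a₁ a₂ ≤ x → x ≤ b (max m₁ m₂) → F x = p * x + q ∧ G x = p' * x + q' := by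
    intro x hx hx'
    refine ⟨h₁ x (le_trans (le_max_left _ _) hx) (hx'.trans (hb.antitone (le_max_left _ _))),
      h₂ x (le_trans (le_max_right _ _) hx) (hx'.trans (hb.antitone (le_max_right _ _)))⟩
  have hab : ∀ k, max a₁ a₂ < b k := fun k => max_lt (ha₁ k) (ha₂ k)
  rcases lt_trichotomy p p' with hp | hp | hp
  · -- slope of G larger
    by_cases hz : ∀ k, (q - q') / (p' - p) < b k
    · refine ⟨max (max a₁ a₂) ((q - q') / (p' - p)), fun k => max_lt (hab k) (hz k),
        max m₁ m₂, p, q, p', q', fun x hx hx' => key x (le_trans (le_max_left _ _) hx) hx',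
        Or.inl fun x hx hx' => ?_⟩
      obtain ⟨e1, e2⟩ := key x (le_trans (le_max_left _ _) hx) hx'
      have h3 : (q - q') / (p' - p) ≤ x := le_trans (le_max_right _ _) hx
      rw [div_le_iff₀ (sub_pos.2 hp)] at h3
      rw [e1, e2]; linarith
    · push Not at hz
      obtain ⟨k, hk⟩ := hz
      have key' : ∀ x, max a₁ a₂ ≤ x → x ≤ b (max (max m₁ m₂) k) →
          F x = p * x + q ∧ G x = p' * x + q' := fun x hx hx' =>
        key x hx (hx'.trans (hb.antitone (le_max_left _ _)))
      refine ⟨max a₁ a₂, hab, max (max m₁ m₂) k, p, q, p', q', key',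
        Or.inr fun x hx hx' => ?_⟩
      obtain ⟨e1, e2⟩ := key' x hx hx'
      have h3 : x ≤ (q - q') / (p' - p) := (hx'.trans (hb.antitone (le_max_right _ _))).trans hk
      rw [le_div_iff₀ (sub_pos.2 hp)] at h3
      rw [e1, e2]; linarith
  · rcases le_total q q' with hq | hq
    · refine ⟨max a₁ a₂, hab, max m₁ m₂, p, q, p', q', key, Or.inl fun x hx hx' => ?_⟩
      obtain ⟨e1, e2⟩ := key x hx hx'
      rw [e1, e2, hp]; linarith
    · refine ⟨max a₁ a₂, hab, max m₁ m₂, p, q, p', q', key, Or.inr fun x hx hx' => ?_⟩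
      obtain ⟨e1, e2⟩ := key x hx hx'
      rw [e1, e2, hp]; linarith
  · by_cases hz : ∀ k, (q' - q) / (p - p') < b k
    · refine ⟨max (max a₁ a₂) ((q' - q) / (p - p')), fun k => max_lt (hab k) (hz k),
        max m₁ m₂, p, q, p', q', fun x hx hx' => key x (le_trans (le_max_left _ _) hx) hx',
        Or.inr fun x hx hx' => ?_⟩
      obtain ⟨e1, e2⟩ := key x (le_trans (le_max_left _ _) hx) hx'
      have h3 : (q' - q) / (p - p') ≤ x := le_trans (le_max_right _ _) hx
      rw [div_le_iff₀ (sub_pos.2 hp)] at h3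
      rw [e1, e2]; linarith
    · push Not at hz
      obtain ⟨k, hk⟩ := hz
      have key' : ∀ x, max a₁ a₂ ≤ x → x ≤ b (max (max m₁ m₂) k) →
          F x = p * x + q ∧ G x = p' * x + q' := fun x hx hx' =>
        key x hx (hx'.trans (hb.antitone (le_max_left _ _)))
      refine ⟨max a₁ a₂, hab, max (max m₁ m₂) k, p, q, p', q', key',
        Or.inl fun x hx hx' => ?_⟩
      obtain ⟨e1, e2⟩ := key' x hx hx'
      have h3 : x ≤ (q' - q) / (p - p') := (hx'.trans (hb.antitone (le_max_right _ _))).trans hk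
      rw [le_div_iff₀ (sub_pos.2 hp)] at h3
      rw [e1, e2]; linarith

theorem loc_max {F G : K → K} (hF : Loc F) (hG : Loc G) : Loc (fun x => max (F x) (G x)) := by
  intro b hb hl
  obtain ⟨a, ha, m, p, q, p', q', h, h' | h'⟩ := loc_compare hF hG b hb hl
  · refine ⟨a, ha, m, p', q', fun x hx hx' => ?_⟩
    show max (F x) (G x) = _
    rw [max_eq_right (h' x hx hx')]; exact (h x hx hx').2
  · refine ⟨a, ha, m, p, q, fun x hx hx' => ?_⟩
    show max (F x) (G x) = _
    rw [max_eq_left (h' x hx hx')]; exact (h x hx hx').1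

theorem loc_min {F G : K → K} (hF : Loc F) (hG : Loc G) : Loc (fun x => min (F x) (G x)) := by
  intro b hb hl
  obtain ⟨a, ha, m, p, q, p', q', h, h' | h'⟩ := loc_compare hF hG b hb hl
  · refine ⟨a, ha, m, p, q, fun x hx hx' => ?_⟩
    show min (F x) (G x) = _
    rw [min_eq_left (h' x hx hx')]; exact (h x hx hx').1
  · refine ⟨a, ha, m, p', q', fun x hx hx' => ?_⟩
    show min (F x) (G x) = _
    rw [min_eq_right (h' x hx hx')]; exact (h x hx hx').2

omit [IsStrictOrderedRing K] in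
theorem loc_mul {f g : K ≃o K} (hf : Loc f) (hg : Loc g) : Loc (f * g : K ≃o K) := by
  intro b hb hl
  obtain ⟨a₁, ha₁, m₁, p, q, h₁⟩ := hg b hb hl
  obtain ⟨l, hl⟩ := hl
  obtain ⟨a₂, ha₂, m₂, p', q', h₂⟩ := hf (fun k => g (b k))
    (fun i j hij => g.strictMono (hb hij)) ⟨g l, fun k => g.strictMono (hl k)⟩
  refine ⟨max a₁ (g.symm a₂), fun k => max_lt (ha₁ k) ?_, max m₁ m₂, p' * p, p' * q + q',
    fun x hx hx' => ?_⟩
  · rw [OrderIso.symm_apply_lt]; exact ha₂ k
  · have e1 := h₁ x (le_trans (le_max_left _ _) hx) (hx'.trans (hb.antitone (le_max_left _ _)))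
    have e2 := h₂ (g x) (by
      have := le_trans (le_max_right _ _) hx
      rwa [OrderIso.symm_apply_le] at this)
      (g.monotone (hx'.trans (hb.antitone (le_max_right _ _))))
    show f (g x) = _
    rw [e2, e1]; ring

theorem loc_inv {f : K ≃o K} (hf : Loc f) : Loc (f⁻¹ : K ≃o K) := by
  intro b hb hl
  obtain ⟨l, hl⟩ := hl
  obtain ⟨a, ha, m, p, q, h⟩ := hf (fun k => f.symm (b k))
    (fun i j hij => f.symm.strictMono (hb hij)) ⟨f.symm l, fun k => f.symm.strictMono (hl k)⟩
  have hfa : ∀ k, f a < b k := fun k => by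
    have := ha k
    rwa [OrderIso.lt_symm_apply] at this
  have hp : p ≠ 0 := by
    intro hp
    have e1 := h a le_rfl (ha m).le
    have e2 := h (f.symm (b m)) (ha m).le le_rfl
    rw [hp, zero_mul, zero_add] at e1 e2
    have : f a < f (f.symm (b m)) := f.strictMono (ha m)
    rw [e1, e2] at this
    exact lt_irrefl _ this
  refine ⟨f a, hfa, m, p⁻¹, - (q * p⁻¹), fun y hy hy' => ?_⟩
  have e := h (f.symm y) (by rwa [OrderIso.le_symm_apply]) (f.symm.monotone hy')
  rw [OrderIso.apply_symm_apply] at e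
  show f.symm y = _
  field_simp
  linarith

/-- The lattice-ordered group: bounded support and `Loc`. -/
def LL (K : Type) [Field K] [LinearOrder K] [IsStrictOrderedRing K] : Subgroup (K ≃o K) where
  carrier := {f | (∃ t₁ t₂ : K, (∀ s, s < t₁ → f s = s) ∧ (∀ s, t₂ < s → f s = s)) ∧ Loc f}
  one_mem' := by
    exact ⟨⟨0, 0, fun _ _ => rfl, fun _ _ => rfl⟩, loc_one⟩
  mul_mem' := by
    rintro f g ⟨⟨t₁, t₂, h₁, h₂⟩, hf⟩ ⟨⟨t₃, t₄, h₃, h₄⟩, hg⟩
    refine ⟨⟨min t₁ t₃, max t₂ t₄, fun s hs => ?_, fun s hs => ?_⟩, loc_mul hf hg⟩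
    · show f (g s) = s
      rw [h₃ s (lt_of_lt_of_le hs (min_le_right _ _)), h₁ s (lt_of_lt_of_le hs (min_le_left _ _))]
    · show f (g s) = s
      rw [h₄ s (lt_of_le_of_lt (le_max_right _ _) hs), h₂ s (lt_of_le_of_lt (le_max_left _ _) hs)]
  inv_mem' := by
    rintro f ⟨⟨t₁, t₂, h₁, h₂⟩, hf⟩
    refine ⟨⟨t₁, t₂, fun s hs => ?_, fun s hs => ?_⟩, loc_inv hf⟩
    · show f.symm s = s
      rw [OrderIso.symm_apply_eq]; exact (h₁ s hs).symm
    · show f.symm s = s
      rw [OrderIso.symm_apply_eq]; exact (h₂ s hs).symm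

theorem mem_LL (f : K ≃o K) : f ∈ LL K ↔
    (∃ t₁ t₂ : K, (∀ s, s < t₁ → f s = s) ∧ (∀ s, t₂ < s → f s = s)) ∧ Loc f := Iff.rfl

theorem LL_sublattice : IsSublatticeOf (LL K) := by
  rintro f ⟨⟨t₁, t₂, h₁, h₂⟩, hf⟩ g ⟨⟨t₃, t₄, h₃, h₄⟩, hg⟩
  refine ⟨⟨osup f g, ⟨⟨min t₁ t₃, max t₂ t₄, fun s hs => ?_, fun s hs => ?_⟩, loc_max hf hg⟩,
    fun t => rfl⟩, ⟨oinf f g, ⟨⟨min t₁ t₃, max t₂ t₄, fun s hs => ?_, fun s hs => ?_⟩,
    loc_min hf hg⟩, fun t => rfl⟩⟩
  · rw [osup_apply, h₃ s (lt_of_lt_of_le hs (min_le_right _ _)),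
      h₁ s (lt_of_lt_of_le hs (min_le_left _ _)), max_self]
  · rw [osup_apply, h₄ s (lt_of_le_of_lt (le_max_right _ _) hs),
      h₂ s (lt_of_le_of_lt (le_max_left _ _) hs), max_self]
  · rw [oinf_apply, h₃ s (lt_of_lt_of_le hs (min_le_right _ _)),
      h₁ s (lt_of_lt_of_le hs (min_le_left _ _)), min_self]
  · rw [oinf_apply, h₄ s (lt_of_le_of_lt (le_max_right _ _) hs),
      h₂ s (lt_of_le_of_lt (le_max_left _ _) hs), min_self]

/-- the affine automorphism with slope `p` fixing `a` -/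
def aff (p a : K) (hp : 0 < p) : K ≃o K where
  toFun x := p * (x - a) + a
  invFun y := p⁻¹ * (y - a) + a
  left_inv x := by field_simp; ring
  right_inv y := by field_simp; ring
  map_rel_iff' := by
    intro x y
    show p * (x - a) + a ≤ p * (y - a) + a ↔ x ≤ y
    rw [add_le_add_iff_right, mul_le_mul_iff_right₀ hp, sub_le_sub_iff_right]

theorem aff_apply (p a : K) (hp : 0 < p) (x : K) : aff p a hp x = p * (x - a) + a := rfl

theorem loc_aff (p a : K) (hp : 0 < p) : Loc (aff p a hp) := by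
  have h := loc_affine p (a - p * a)
  have : (fun x : K => p * x + (a - p * a)) = aff p a hp := by
    funext x
    rw [aff_apply]; ring
  rwa [this] at h

theorem exists_bump (a b b' c : K) (hab : a < b) (hbb : b ≤ b') (hbc : b' < c) :
    ∃ f ∈ LL K, f b = b' ∧ (∀ x, x ≤ a → f x = x) ∧ (∀ x, c ≤ x → f x = x) := by
  have h1 : 0 < b - a := sub_pos.2 hab
  have h2 : 0 < c - b := sub_pos.2 (lt_of_le_of_lt hbb hbc)
  have h3 : 0 < b' - a := by linarith
  have h4 : 0 < c - b' := by linarith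
  have s1 : 0 < (b' - a) / (b - a) := div_pos h3 h1
  have s2 : 0 < (c - b') / (c - b) := div_pos h4 h2
  have s1' : 1 ≤ (b' - a) / (b - a) := by rw [one_le_div h1]; linarith
  have s2' : (c - b') / (c - b) ≤ 1 := by rw [div_le_one h2]; linarith
  have lo : ∀ x, x ≤ a → osup 1 (oinf (aff _ a s1) (aff _ c s2)) x = x := by
    intro x hx
    rw [osup_apply, oinf_apply, aff_apply, aff_apply]
    apply max_eq_left
    refine (min_le_left _ _).trans ?_
    show _ ≤ x
    nlinarith [mul_nonneg (sub_nonneg.2 s1') (sub_nonneg.2 hx)]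
  have hi : ∀ x, c ≤ x → osup 1 (oinf (aff _ a s1) (aff _ c s2)) x = x := by
    intro x hx
    rw [osup_apply, oinf_apply, aff_apply, aff_apply]
    apply max_eq_left
    refine (min_le_right _ _).trans ?_
    show _ ≤ x
    nlinarith [mul_nonneg (sub_nonneg.2 s2') (sub_nonneg.2 hx)]
  refine ⟨osup 1 (oinf (aff _ a s1) (aff _ c s2)), ⟨⟨a, c, fun s hs => lo s hs.le,
    fun s hs => hi s hs.le⟩, loc_max loc_one (loc_min (loc_aff _ _ _) (loc_aff _ _ _))⟩, ?_, lo, hi⟩
  · rw [osup_apply, oinf_apply, aff_apply, aff_apply]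
    have e1 : (b' - a) / (b - a) * (b - a) + a = b' := by field_simp; ring
    have e2 : (c - b') / (c - b) * (b - c) + c = b' := by
      have : (c - b') / (c - b) * (b - c) = - (c - b') := by
        rw [show b - c = - (c - b) by ring]
        field_simp
      rw [this]; ring
    rw [e1, e2, min_self]
    exact max_eq_right hbb

theorem exists_move (a b b' c : K) (hab : a < b) (hab' : a < b') (hbc : b < c) (hbc' : b' < c) :
    ∃ f ∈ LL K, f b = b' ∧ (∀ x, x ≤ a → f x = x) ∧ (∀ x, c ≤ x → f x = x) := by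
  rcases le_total b b' with h | h
  · exact exists_bump a b b' c hab h hbc'
  · obtain ⟨f, hf, h1, h2, h3⟩ := exists_bump a b' b c hab' h hbc
    refine ⟨f⁻¹, (LL K).inv_mem hf, ?_, fun x hx => ?_, fun x hx => ?_⟩
    · show f.symm b = b'
      rw [OrderIso.symm_apply_eq]; exact h1.symm
    · show f.symm x = x
      rw [OrderIso.symm_apply_eq]; exact (h2 x hx).symm
    · show f.symm x = x
      rw [OrderIso.symm_apply_eq]; exact (h3 x hx).symm

theorem LL_twoTransitive : TwoTransitive (LL K) := by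
  intro r₁ r₂ s₁ s₂ hr hs
  obtain ⟨a, ha⟩ := exists_lt (min r₁ s₁)
  obtain ⟨c, hc⟩ := exists_gt (max r₁ s₁)
  obtain ⟨f, hf, h1, -, -⟩ := exists_move a r₁ s₁ c (lt_of_lt_of_le ha (min_le_left _ _))
    (lt_of_lt_of_le ha (min_le_right _ _)) (lt_of_le_of_lt (le_max_left _ _) hc)
    (lt_of_le_of_lt (le_max_right _ _) hc)
  have h2 : s₁ < f r₂ := by rw [← h1]; exact f.strictMono hr
  obtain ⟨c', hc'⟩ := exists_gt (max (f r₂) s₂)
  obtain ⟨g, hg, h3, h4, -⟩ := exists_move s₁ (f r₂) s₂ c' h2 hs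
    (lt_of_le_of_lt (le_max_left _ _) hc') (lt_of_le_of_lt (le_max_right _ _) hc')
  refine ⟨g * f, (LL K).mul_mem hg hf, ?_, h3⟩
  show g (f r₁) = s₁
  rw [h1]; exact h4 s₁ le_rfl

theorem LL_no_lprime (hK : Eta K) (f : K ≃o K) (hf : f ∈ LL K) (hpos : ∀ t, t ≤ f t)
    (hne : f ≠ 1) : ∃ f₁ ∈ LL K, ∃ f₂ ∈ LL K, f₁ ≠ 1 ∧ f₂ ≠ 1 ∧
      (∀ t, min (f₁ t) (f₂ t) = t) ∧ (∀ t, max (f₁ t) (f₂ t) = f t) := by
  obtain ⟨⟨t₁, t₂, h₁, h₂⟩, hloc⟩ := (mem_LL f).1 hf
  -- a point moved by `f`
  have hu : ∃ u, u < f u := by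
    by_contra hcon
    push Not at hcon
    apply hne
    ext x
    exact le_antisymm (hcon x) (hpos x)
  obtain ⟨u, hu⟩ := hu
  -- a fixed point below `u`
  obtain ⟨s, hs⟩ := exists_lt (min t₁ u)
  have hs1 : f s = s := h₁ s (lt_of_lt_of_le hs (min_le_left _ _))
  have hsu : s < u := lt_of_lt_of_le hs (min_le_right _ _)
  -- the backward orbit
  let b : ℕ → K := fun k => (f.symm)^[k] u
  have hb0 : b 0 = u := rfl
  have hbs : ∀ k, f (b (k + 1)) = b k := by
    intro k
    show f ((f.symm)^[k + 1] u) = (f.symm)^[k] u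
    rw [Function.iterate_succ_apply', OrderIso.apply_symm_apply]
  have hblt : ∀ k, b (k + 1) < b k := by
    intro k
    induction k with
    | zero =>
      show f.symm u < u
      rw [OrderIso.symm_apply_lt]; exact hu
    | succ k ih =>
      rw [← f.lt_iff_lt, hbs, hbs]; exact ih
  have hanti : StrictAnti b := strictAnti_nat_of_succ_lt hblt
  have hbl : ∀ k, s < b k := by
    intro k
    induction k with
    | zero => exact hsu
    | succ k ih =>
      rw [← f.lt_iff_lt, hbs, hs1]; exact ih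
  obtain ⟨a, ha, m, p, q, hpq⟩ := hloc b hanti ⟨s, hbl⟩
  -- find a moved point below the whole backward orbit
  have hv : ∃ v, (∀ k, v < b k) ∧ v < f v := by
    have hm : b m < p * b m + q := by
      rw [← hpq (b m) (ha m).le le_rfl]
      cases m with
      | zero => exact hu
      | succ k => rw [hbs]; exact hblt k
    rcases le_or_gt p 1 with hp | hp
    · obtain ⟨v, hv⟩ := hK (fun _ => a) b (fun _ j => ha j)
      refine ⟨v, fun k => (hv k).2, ?_⟩
      rw [hpq v (hv 0).1.le (hv m).2.le]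
      nlinarith [mul_nonneg (sub_nonneg.2 hp) (sub_nonneg.2 (hv m).2.le)]
    · have hz : ∀ k, (-q) / (p - 1) < b k := by
        intro k
        rw [div_lt_iff₀ (sub_pos.2 hp)]
        rcases le_total m k with hmk | hmk
        · have hk : b k < f (b k) := by
            cases k with
            | zero => exact hu
            | succ k => rw [hbs]; exact hblt k
          rw [hpq (b k) (ha k).le (hanti.antitone hmk)] at hk
          linarith
        · have hk : b m ≤ b k := hanti.antitone hmk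
          nlinarith [mul_nonneg (sub_pos.2 hp).le (sub_nonneg.2 hk)]
      obtain ⟨v, hv⟩ := hK (fun _ => max a ((-q) / (p - 1))) b
        (fun _ j => max_lt (ha j) (hz j))
      refine ⟨v, fun k => (hv k).2, ?_⟩
      have hv1 : a < v := lt_of_le_of_lt (le_max_left _ _) (hv 0).1
      have hv2 : (-q) / (p - 1) < v := lt_of_le_of_lt (le_max_right _ _) (hv 0).1
      rw [hpq v hv1.le (hv m).2.le]
      rw [div_lt_iff₀ (sub_pos.2 hp)] at hv2
      linarith
  obtain ⟨v, hvb, hvf⟩ := hv
  -- the forward orbit of `v`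
  let w : ℕ → K := fun k => f^[k] v
  have hws : ∀ k, f (w k) = w (k + 1) := by
    intro k
    show f (f^[k] v) = f^[k + 1] v
    rw [Function.iterate_succ_apply']
  have hwlt : ∀ k, w k < w (k + 1) := by
    intro k
    induction k with
    | zero => exact hvf
    | succ k ih => rw [← hws, ← hws]; exact f.strictMono ih
  have hwb : ∀ j k, w j < b k := by
    intro j
    induction j with
    | zero => exact hvb
    | succ j ih =>
      intro k
      rw [← hws, ← hbs]
      exact f.strictMono (ih (k + 1))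
  let A : Set K := {x | ∃ k, x < w k}
  have hA : ∀ x y, x ≤ y → y ∈ A → x ∈ A := by
    rintro x y hxy ⟨k, hk⟩
    exact ⟨k, lt_of_le_of_lt hxy hk⟩
  have hfA : ∀ x, f x ∈ A ↔ x ∈ A := by
    intro x
    constructor
    · rintro ⟨k, hk⟩
      exact ⟨k, lt_of_le_of_lt (hpos x) hk⟩
    · rintro ⟨k, hk⟩
      exact ⟨k + 1, by rw [← hws]; exact f.strictMono hk⟩
  have hvA : v ∈ A := ⟨1, hvf⟩
  have huA : u ∉ A := by
    rintro ⟨k, hk⟩
    exact absurd (hwb k 0) (not_lt.2 (by rw [hb0]; exact hk.le))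
  -- a point separating the cut of `A` from a decreasing sequence above it
  have hsep : ∀ d : ℕ → K, StrictAnti d → (∀ k, d k ∉ A) → ∃ c, c ∉ A ∧ ∀ k, c < d k := by
    intro d hd hdA
    have h : ∀ i j, w i < d j := by
      intro i j
      refine lt_of_lt_of_le (hwlt i) ?_
      by_contra hcon
      exact hdA j ⟨i + 1, not_le.1 hcon⟩
    obtain ⟨c, hc⟩ := hK w d h
    refine ⟨c, ?_, fun k => (hc k).2⟩
    rintro ⟨k, hk⟩
    exact absurd (hc k).1 (not_lt.2 hk.le)
  have hlow : Loc (low f A hA hfA) := by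
    intro d hd hl
    by_cases hcase : ∃ k, d k ∈ A
    · obtain ⟨k, hk⟩ := hcase
      obtain ⟨a', ha', m', p', q', h'⟩ := hloc d hd hl
      refine ⟨a', ha', max m' k, p', q', fun x hx hx' => ?_⟩
      have hxA : x ∈ A := hA _ _ (hx'.trans (hd.antitone (le_max_right _ _))) hk
      rw [low_apply, if_pos hxA]
      exact h' x hx (hx'.trans (hd.antitone (le_max_left _ _)))
    · push Not at hcase
      obtain ⟨c, hcA, hc⟩ := hsep d hd hcase
      refine ⟨c, hc, 0, 1, 0, fun x hx hx' => ?_⟩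
      have hxA : x ∉ A := fun hxA => hcA (hA _ _ hx hxA)
      rw [low_apply, if_neg hxA]; ring
  have hhigh : Loc (high f A hA hfA) := by
    intro d hd hl
    obtain ⟨a', ha', m', p', q', h'⟩ := hloc d hd hl
    by_cases hcase : ∃ k, d k ∈ A
    · obtain ⟨k, hk⟩ := hcase
      refine ⟨a', ha', k, 1, 0, fun x hx hx' => ?_⟩
      have hxA : x ∈ A := hA _ _ hx' hk
      rw [high_apply, if_pos hxA]; ring
    · push Not at hcase
      obtain ⟨c, hcA, hc⟩ := hsep d hd hcase
      refine ⟨max a' c, fun k => max_lt (ha' k) (hc k), m', p', q', fun x hx hx' => ?_⟩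
      have hxA : x ∉ A := fun hxA => hcA (hA _ _ ((le_max_right _ _).trans hx) hxA)
      rw [high_apply, if_neg hxA]
      exact h' x ((le_max_left _ _).trans hx) hx'
  refine ⟨low f A hA hfA, ⟨⟨t₁, t₂, fun x hx => ?_, fun x hx => ?_⟩, hlow⟩,
    high f A hA hfA, ⟨⟨t₁, t₂, fun x hx => ?_, fun x hx => ?_⟩, hhigh⟩, ?_, ?_, ?_, ?_⟩
  · rw [low_apply]; split_ifs
    · exact h₁ x hx
    · rfl
  · rw [low_apply]; split_ifs
    · exact h₂ x hx
    · rfl
  · rw [high_apply]; split_ifs
    · rfl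
    · exact h₁ x hx
  · rw [high_apply]; split_ifs
    · rfl
    · exact h₂ x hx
  · intro h
    have h' : low f A hA hfA v = v := by rw [h]; rfl
    rw [low_apply, if_pos hvA] at h'
    exact absurd hvf (by rw [h']; exact lt_irrefl _)
  · intro h
    have h' : high f A hA hfA u = u := by rw [h]; rfl
    rw [high_apply, if_neg huA] at h'
    exact absurd hu (by rw [h']; exact lt_irrefl _)
  · intro t
    rw [low_apply, high_apply]
    by_cases ht : t ∈ A
    · rw [if_pos ht, if_pos ht]; exact min_eq_right (hpos t)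
    · rw [if_neg ht, if_neg ht]; exact min_eq_left (hpos t)
  · intro t
    rw [low_apply, high_apply]
    by_cases ht : t ∈ A
    · rw [if_pos ht, if_pos ht]; exact max_eq_left (hpos t)
    · rw [if_neg ht, if_neg ht]; exact max_eq_right (hpos t)

end field

/-- The hyperreal numbers fill every countable gap. -/
theorem eta_germ : Eta (Filter.Germ (Filter.hyperfilter ℕ : Filter ℕ) ℝ) := by
  classical
  intro a b hab
  have hrep : ∀ x : Filter.Germ (Filter.hyperfilter ℕ : Filter ℕ) ℝ,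
      ∃ f : ℕ → ℝ, (f : Filter.Germ (Filter.hyperfilter ℕ : Filter ℕ) ℝ) = x := by
    intro x
    exact Filter.Germ.inductionOn x (fun f => ⟨f, rfl⟩)
  choose α hα using fun i => hrep (a i)
  choose β hβ using fun i => hrep (b i)
  have h1 : ∀ i j, ∀ᶠ n in (Filter.hyperfilter ℕ : Filter ℕ), α i n < β j n := by
    intro i j
    have h := hab i j
    rw [← hα i, ← hβ j] at h
    exact Filter.Germ.coe_lt.1 h
  let P : ℕ → ℕ → Prop := fun n N => ∀ i < N, ∀ j < N, α i n < β j n
  have hP0 : ∀ n, P n 0 := fun n i hi => absurd hi (Nat.not_lt_zero i)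
  have hN : ∀ n, P n (Nat.findGreatest (P n) n) := fun n =>
    Nat.findGreatest_spec (P := P n) (Nat.zero_le n) (hP0 n)
  have hc : ∀ n, ∃ c : ℝ, ∀ i < Nat.findGreatest (P n) n, α i n < c ∧ c < β i n := by
    intro n
    obtain ⟨c, hc1, hc2⟩ := Finset.exists_between'
      ((Finset.range (Nat.findGreatest (P n) n)).image (fun i => α i n))
      ((Finset.range (Nat.findGreatest (P n) n)).image (fun i => β i n)) (by
        intro x hx y hy
        rw [Finset.mem_image] at hx hy
        obtain ⟨i, hi, rfl⟩ := hx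
        obtain ⟨j, hj, rfl⟩ := hy
        exact hN n i (Finset.mem_range.1 hi) j (Finset.mem_range.1 hj))
    exact ⟨c, fun i hi => ⟨hc1 _ (Finset.mem_image_of_mem _ (Finset.mem_range.2 hi)),
      hc2 _ (Finset.mem_image_of_mem _ (Finset.mem_range.2 hi))⟩⟩
  choose c hc using hc
  refine ⟨(c : Filter.Germ (Filter.hyperfilter ℕ : Filter ℕ) ℝ), fun i => ?_⟩
  have h2 : ∀ᶠ n in (Filter.hyperfilter ℕ : Filter ℕ), P n (i + 1) := by
    have h3 : ∀ᶠ n in (Filter.hyperfilter ℕ : Filter ℕ), ∀ k ∈ Finset.range (i + 1),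
        ∀ l ∈ Finset.range (i + 1), α k n < β l n := by
      rw [Filter.eventually_all_finset]
      intro k _
      rw [Filter.eventually_all_finset]
      intro l _
      exact h1 k l
    filter_upwards [h3] with n hn
    intro k hk l hl
    exact hn k (Finset.mem_range.2 hk) l (Finset.mem_range.2 hl)
  have h4 : ∀ᶠ n in (Filter.hyperfilter ℕ : Filter ℕ), i + 1 ≤ n :=
    Nat.hyperfilter_le_atTop (Filter.eventually_ge_atTop (i + 1))
  have h5 : ∀ᶠ n in (Filter.hyperfilter ℕ : Filter ℕ), α i n < c n ∧ c n < β i n := by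
    filter_upwards [h2, h4] with n hn hn'
    exact hc n i (Nat.lt_of_lt_of_le (Nat.lt_succ_self i) (Nat.le_findGreatest hn' hn))
  constructor
  · rw [← hα i]
    exact Filter.Germ.coe_lt.2 (h5.mono fun n hn => hn.1)
  · rw [← hβ i]
    exact Filter.Germ.coe_lt.2 (h5.mono fun n hn => hn.2)

/-- There is a chain `T` with more than two elements and a subgroup and sublattice `L` of its
automorphism group, 2-transitive and of bounded support, without an l-prime `f > e`. -/
theorem result : ∃ (T : Type) (_ : LinearOrder T), (∃ x y z : T, x < y ∧ y < z) ∧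
    ∃ L : Subgroup (T ≃o T), IsSublatticeOf L ∧ TwoTransitive L ∧ BoundedSupport L ∧
      ∀ f ∈ L, (∀ t, t ≤ f t) → f ≠ 1 → ¬ IsLPrime L f := by
  refine ⟨Filter.Germ (Filter.hyperfilter ℕ : Filter ℕ) ℝ, inferInstance,
    ⟨0, 1, 2, zero_lt_one, one_lt_two⟩,
    LL (Filter.Germ (Filter.hyperfilter ℕ : Filter ℕ) ℝ), LL_sublattice, LL_twoTransitive,
    fun f hf => hf.1, fun f hf hpos hne hprime => hprime.2 ?_⟩
  exact LL_no_lprime eta_germ f hf hpos hne

end Pool.Agent.Results.MP_31a5b6_al.EtaOne
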